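import Mathlib

set_option autoImplicit false

namespace Pool.Agent.Results.MP_8d2225_pr.NoCutoff

open Finset Filter Topology Matrix

noncomputable section

section defs
variable {G : Type} [AddCommGroup G] [Fintype G] [DecidableEq G] (S : Finset G)

/-- Transition matrix of the lazy simple random walk on `Cay(G,S)`. -/
def P : Matrix G G ℝ := fun x y =>
  (if x = y then 1 / 2 else 0) + (if y - x ∈ S then 1 / (2 * (S.card : ℝ)) else 0)

/-- Worst-case total variation distance to the uniform distribution at time `t`. -/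
def d (t : ℕ) : ℝ := ⨆ x : G, (1 / 2) * ∑ y, |(P S ^ t) x y - 1 / (Fintype.card G : ℝ)|

def Tmix (ε : ℝ) : ℕ := sInf {t | d S t ≤ ε}

/-- The largest eigenvalue of `P` other than the (simple) eigenvalue `1`. -/
def lam2 : ℝ := sSup {l : ℝ | l ≠ 1 ∧ ∃ f : G → ℝ, f ≠ 0 ∧ P S *ᵥ f = l • f}

def Trel : ℝ := 1 / (1 - lam2 S)

def K (g : G → ℝ) : G → ℝ := fun y => 1 / 2 * g y + 1 / (2 * (S.card : ℝ)) * ∑ s ∈ S, g (y + s)

def N (g : G → ℝ) : ℝ := ∑ y, |g y|

lemma mulVec_eq (g : G → ℝ) : P S *ᵥ g = K S g := by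
  ext x
  simp only [mulVec, dotProduct, P, K, add_mul, sum_add_distrib, ite_mul, zero_mul, sum_ite_eq,
    mem_univ, if_true]
  congr 1
  rw [← Equiv.sum_comp (Equiv.addLeft x), mul_sum]
  simp [sum_ite_mem]

variable {S}

lemma row (hS : ∀ s ∈ S, -s ∈ S) (t : ℕ) (x : G) :
    (fun y => (P S ^ t) x y) = (K S)^[t] (fun y => if x = y then 1 else 0) := by
  induction t with
  | zero => ext y; simp [one_apply]
  | succ t ih =>
    rw [Function.iterate_succ_apply', ← ih, ← mulVec_eq]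
    ext y
    rw [pow_succ, mul_apply]
    refine sum_congr rfl fun z _ => ?_
    have : z - y ∈ S ↔ y - z ∈ S := ⟨fun h => by simpa using hS _ h, fun h => by simpa using hS _ h⟩
    simp only [P, this, eq_comm (a := y), mul_comm]

lemma shift (g : G → ℝ) (s : G) : ∑ y, g (y + s) = ∑ y, g y := Equiv.sum_comp (Equiv.addRight s) g

lemma sum_K (h : S.Nonempty) (g : G → ℝ) : ∑ y, K S g y = ∑ y, g y := by
  have : (0 : ℝ) < S.card := by exact_mod_cast h.card_pos
  simp only [K, sum_add_distrib, ← mul_sum]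
  rw [sum_comm]
  simp only [shift, sum_const, nsmul_eq_mul]
  field_simp; ring

lemma kill (h : S.Nonempty) (h0 : 0 ∉ S) {S' : Finset G} (h1 : S' ⊆ insert 0 S) {g : G → ℝ}
    (h2 : ∀ y, ∑ s ∈ S', g (y + s) = 0) {c : ℝ} (h3 : 2 * c * S.card ≤ S'.card) :
    N (K S g) ≤ (1 - c) * N g := by
  have p : (0 : ℝ) < S.card := by exact_mod_cast h.card_pos
  have p1 : (1 : ℝ) ≤ S.card := by exact_mod_cast h.card_pos
  have e : ∀ y, |K S g y| ≤ 1 / (2 * (S.card : ℝ)) *
      ((S.card - 1) * |g y| + ∑ s ∈ insert 0 S \ S', |g (y + s)|) := fun y => by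
    have a := sum_sdiff (f := fun s => g (y + s)) h1
    rw [h2, sum_insert h0, add_zero, add_zero] at a
    have b : K S g y = 1 / (2 * (S.card : ℝ)) *
        ((S.card - 1) * g y + ∑ s ∈ insert 0 S \ S', g (y + s)) := by
      rw [a, K]; field_simp; ring
    rw [b, abs_mul, abs_of_pos (by positivity)]
    gcongr
    refine (abs_add_le _ _).trans (add_le_add ?_ (abs_sum_le_sum_abs _ _))
    rw [abs_mul, abs_of_nonneg (by linarith)]
  refine (sum_le_sum fun y _ => e y).trans ?_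
  rw [← mul_sum, sum_add_distrib, ← mul_sum, sum_comm]
  simp only [shift (fun y => |g y|), sum_const, nsmul_eq_mul]
  rw [card_sdiff_of_subset h1, Nat.cast_sub (card_le_card h1), card_insert_of_notMem h0]
  have : 0 ≤ N g := sum_nonneg fun _ _ => abs_nonneg _
  unfold N at *
  rw [div_mul_eq_mul_div, div_le_iff₀ (by positivity)]
  push_cast
  nlinarith [mul_le_mul_of_nonneg_right h3 this]

lemma iter {Q : (G → ℝ) → Prop} {c : ℝ} (hc : 0 ≤ c) (h1 : ∀ g, Q g → Q (K S g))
    (h2 : ∀ g, Q g → N (K S g) ≤ c * N g) {g : G → ℝ} (h : Q g) (t : ℕ) :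
    Q ((K S)^[t] g) ∧ N ((K S)^[t] g) ≤ c ^ t * N g := by
  induction t with
  | zero => simpa
  | succ t ih =>
    rw [Function.iterate_succ_apply']
    refine ⟨h1 _ ih.1, (h2 _ ih.1).trans ?_⟩
    rw [pow_succ', mul_assoc]
    exact mul_le_mul_of_nonneg_left ih.2 hc

lemma K_add (t : ℕ) (f g : G → ℝ) : (K S)^[t] (f + g) = (K S)^[t] f + (K S)^[t] g := by
  induction t with
  | zero => rfl
  | succ t ih =>
    simp only [Function.iterate_succ_apply', ih]
    ext y; simp only [K, Pi.add_apply, sum_add_distrib]; ring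

lemma K_const (h : S.Nonempty) (t : ℕ) (c : ℝ) : (K S)^[t] (fun _ => c) = fun _ => c := by
  have p : (0 : ℝ) < S.card := by exact_mod_cast h.card_pos
  refine Function.iterate_fixed ?_ t
  ext y; simp only [K, sum_const, nsmul_eq_mul]; field_simp; ring

lemma K_sum {ι : Type} (I : Finset ι) (v : ι → G) (g : G → ℝ) (y : G) :
    ∑ i ∈ I, K S g (y + v i) = K S (fun y => ∑ i ∈ I, g (y + v i)) y := by
  simp only [K, sum_add_distrib, ← mul_sum]
  rw [sum_comm]
  simp only [add_right_comm y]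

lemma eig {g : G → ℝ} (hg : g ≠ 0) {l c : ℝ} (h : K S g = l • g) (h1 : N (K S g) ≤ c * N g) :
    l ≤ c := by
  have p : 0 < N g := by
    obtain ⟨y, hy⟩ := Function.ne_iff.1 hg
    exact sum_pos' (fun _ _ => abs_nonneg _) ⟨y, mem_univ _, abs_pos.2 hy⟩
  have : N (l • g) = |l| * N g := by simp [N, abs_mul, mul_sum]
  rw [h, this] at h1
  exact (le_abs_self l).trans (le_of_mul_le_mul_right h1 p)

end defs

section ex
variable (p k r : ℕ) [Fact p.Prime] [NeZero r]

abbrev V := Fin (k + 2) → ZMod p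
abbrev H := ZMod p × ZMod (p ^ k) × ZMod r
abbrev GG := V p k × H p k r

instance : NeZero (p ^ k) := ⟨pow_ne_zero _ (Fact.out : p.Prime).ne_zero⟩

def w (a x : ZMod p) : V p k := fun i => a * x ^ (i : ℕ)

def SS : Finset (GG p k r) :=
  univ.filter fun s => s ≠ 0 ∧ (s.2 = 0 ∨ ∃ a, s.1 = w p k a (s.2.1 ^ 2))

def SA (Y : Finset (H p k r)) : Finset (GG p k r) :=
  (univ ×ˢ Y).image fun z : ZMod p × H p k r => (w p k z.1 (z.2.1 ^ 2), z.2)

def SB : Finset (GG p k r) := univ.image fun v => (v, 0)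

variable {p k r}

lemma inj : Function.Injective fun z : ZMod p × H p k r => (w p k z.1 (z.2.1 ^ 2), z.2) := by
  intro z z' h
  have a := congrFun (congrArg Prod.fst h) 0
  exact Prod.ext (by simpa [w] using a) (Prod.ext_iff.1 h).2

lemma SA_sub (Y : Finset (H p k r)) : SA p k r Y ⊆ insert 0 (SS p k r) := by
  intro s hs
  obtain ⟨z, -, rfl⟩ := mem_image.1 hs
  rw [mem_insert, or_iff_not_imp_left]
  exact fun h => mem_filter.2 ⟨mem_univ _, h, Or.inr ⟨_, rfl⟩⟩

lemma SB_sub : SB p k r ⊆ insert 0 (SS p k r) := by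
  intro s hs
  obtain ⟨z, -, rfl⟩ := mem_image.1 hs
  rw [mem_insert, or_iff_not_imp_left]
  exact fun h => mem_filter.2 ⟨mem_univ _, h, Or.inl rfl⟩

lemma SA_card (Y : Finset (H p k r)) : (SA p k r Y).card = p * Y.card := by
  rw [SA, card_image_of_injective _ inj]; simp

lemma SB_card : (SB p k r).card = p ^ (k + 2) := by
  rw [SB, card_image_of_injective _ (fun a b h => congrArg Prod.fst h)]; simp

lemma cH : Fintype.card (H p k r) = p * (p ^ k * r) := by simp

lemma zero_nm : 0 ∉ SS p k r := by simp [SS]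

lemma SS_le : (SS p k r).card ≤ (r + 1) * p ^ (k + 2) := by
  have : SS p k r ⊆ SA p k r univ ∪ SB p k r := by
    rintro ⟨v, h⟩ hs
    rcases (mem_filter.1 hs).2.2 with a | ⟨a, b⟩
    · exact mem_union_right _ (mem_image.2 ⟨v, mem_univ _, Prod.ext rfl a.symm⟩)
    · exact mem_union_left _ (mem_image.2 ⟨(a, h), by simp, Prod.ext b.symm rfl⟩)
  refine (card_le_card this).trans ((card_union_le _ _).trans (le_of_eq ?_))
  rw [SA_card, SB_card, card_univ, cH]; ring

lemma SS_ge : r * p ^ (k + 2) ≤ (SS p k r).card := by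
  have h := card_le_card (insert_subset (s := SA p k r univ) (a := (Pi.single 1 1, 0))
    (SB_sub (mem_image.2 ⟨_, mem_univ _, rfl⟩)) (SA_sub univ))
  rw [card_insert_of_notMem zero_nm, card_insert_of_notMem, SA_card, card_univ, cH] at h
  · refine le_trans (le_of_eq (by ring)) (Nat.le_of_succ_le_succ h)
  · intro hh
    obtain ⟨z, -, e⟩ := mem_image.1 hh
    have a := congrFun (congrArg Prod.fst e) 1
    have b : z.2 = 0 := congrArg Prod.snd e
    simp [w, b] at a

lemma ppos : 0 < p ^ (k + 2) := pow_pos (Fact.out : p.Prime).pos _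

lemma SS_ne : (SS p k r).Nonempty :=
  card_pos.1 (lt_of_lt_of_le (Nat.mul_pos (NeZero.pos r) ppos) SS_ge)

lemma SS_neg : ∀ s ∈ SS p k r, -s ∈ SS p k r := by
  intro s hs
  obtain ⟨a, b⟩ := (mem_filter.1 hs).2
  refine mem_filter.2 ⟨mem_univ _, neg_ne_zero.2 a, b.imp (fun h => by simp [h]) ?_⟩
  rintro ⟨c, h⟩
  exact ⟨-c, by ext i; simp [h, w]⟩

lemma SS_gen : AddSubgroup.closure (SS p k r : Set (GG p k r)) = ⊤ := by
  have : ∀ s ∈ insert 0 (SS p k r), s ∈ AddSubgroup.closure (SS p k r : Set (GG p k r)) :=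
    fun s hs => (mem_insert.1 hs).elim (fun h => h ▸ zero_mem _) fun h => AddSubgroup.subset_closure h
  refine eq_top_iff.2 fun s _ => ?_
  have := add_mem (this _ (SB_sub (mem_image.2 ⟨s.1, mem_univ _, rfl⟩)))
    (this _ (SA_sub univ (mem_image.2 ⟨(0, s.2), by simp, rfl⟩)))
  convert this using 1
  ext i <;> simp [w]

/-- functions killed by averaging over `V` -/
lemma killB {g : GG p k r → ℝ} (h : ∀ y, ∑ v, g (y + (v, 0)) = 0) :
    N (K (SS p k r) g) ≤ (1 - 1 / (2 * (r + 1))) * N g := by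
  refine kill SS_ne zero_nm SB_sub (fun y => ?_) ?_
  · rw [SB, sum_image (fun a _ b _ h => congrArg Prod.fst h)]; exact h y
  · have : ((SS p k r).card : ℝ) ≤ (r + 1) * p ^ (k + 2) := by exact_mod_cast SS_le
    rw [SB_card]; push_cast
    rw [show (2 : ℝ) * (1 / (2 * (r + 1))) = 1 / (r + 1) by field_simp, div_mul_eq_mul_div,
      div_le_iff₀ (by positivity)]
    linarith

lemma killA {g : GG p k r → ℝ} (h : ∀ y v, g (y + (v, 0)) = g y) (h' : ∑ y, g y = 0) :
    N (K (SS p k r) g) ≤ (1 - 1 / 4) * N g := by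
  refine kill SS_ne zero_nm (SA_sub univ) (fun y => ?_) ?_
  · rw [SA, sum_image (fun a _ b _ h => inj h), sum_product]
    refine sum_eq_zero fun a _ => ?_
    have e : ∀ v z, g (y + (v, z)) = g (y + (0, z)) := fun v z => by
      rw [← h (y + (0, z)) v]; congr 1; ext <;> simp
    rw [← shift g y, Fintype.sum_prod_type] at h'
    simp only [add_comm _ y, e, sum_const, nsmul_eq_mul, mul_eq_zero, Nat.cast_eq_zero,
      card_eq_zero, univ_eq_empty_iff, not_isEmpty_of_nonempty, false_or] at h'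
    simpa only [e] using h'
  · have a := SS_le (p := p) (k := k) (r := r)
    have b := NeZero.pos r
    have : (SS p k r).card ≤ 2 * (SA p k r univ).card := by
      rw [SA_card, card_univ, cH]
      calc _ ≤ (r + 1) * p ^ (k + 2) := a
        _ ≤ (2 * r) * p ^ (k + 2) := Nat.mul_le_mul_right _ (by omega)
        _ = _ := by ring
    have : ((SS p k r).card : ℝ) ≤ 2 * (SA p k r univ).card := by exact_mod_cast this
    linarith

lemma upper (t : ℕ) : d (SS p k r) t ≤ (1 - 1 / (2 * (r + 1))) ^ t + (1 - 1 / 4) ^ t := by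
  refine ciSup_le fun x => ?_
  have pp : (0 : ℝ) < p ^ (k + 2) := by exact_mod_cast ppos
  let e : GG p k r → ℝ := fun y => if x = y then 1 else 0
  let u : GG p k r → ℝ := fun y => (∑ v, e (y + (v, 0))) / p ^ (k + 2)
  let c : ℝ := 1 / Fintype.card (GG p k r)
  have e0 : ∀ y, 0 ≤ e y := fun y => by simp only [e]; split_ifs <;> norm_num
  have u0 : ∀ y, 0 ≤ u y := fun y => div_nonneg (sum_nonneg fun _ _ => e0 _) pp.le
  have c0 : 0 ≤ c := by positivity
  have se : ∑ y, e y = 1 := by simp [e]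
  have su : ∑ y, u y = 1 := by
    simp only [u]
    rw [← sum_div, sum_comm]
    simp only [shift e, se]
    simp [pp.ne']
  have sc : ∑ _y : GG p k r, c = 1 := by
    simp only [c, sum_const, card_univ, nsmul_eq_mul]
    exact mul_one_div_cancel (by positivity)
  have ui : ∀ y v, u (y + (v, 0)) = u y := fun y v => by
    simp only [u]
    rw [← Equiv.sum_comp (Equiv.addLeft v) (fun v => e (y + (v, 0)))]
    simp [add_assoc]
  have a1 := (iter (S := SS p k r) (Q := fun g => ∀ y, ∑ v, g (y + (v, 0)) = 0)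
    (by rw [sub_nonneg, div_le_one (by positivity)]; linarith [(Nat.cast_nonneg r : (0 : ℝ) ≤ r)])
    (fun g h y => by rw [K_sum]; simp [K, h]) (fun g => killB) (g := e - u) (fun y => by
      simp only [Pi.sub_apply, sum_sub_distrib, ui]
      simp [u, mul_div_cancel₀ _ pp.ne']) t).2
  have a2 := (iter (S := SS p k r) (Q := fun g => (∀ y v, g (y + (v, 0)) = g y) ∧ ∑ y, g y = 0)
    (by norm_num) (fun g h => ⟨fun y v => by simp only [K, add_right_comm y, h.1],
      (sum_K SS_ne g).trans h.2⟩) (fun g h => killA h.1 h.2) (g := u - fun _ => c)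
      ⟨fun y v => by simp only [Pi.sub_apply, ui], by
        simp only [Pi.sub_apply, sum_sub_distrib, su, sc, sub_self]⟩ t).2
  have b : ∀ f g : GG p k r → ℝ, (∀ y, 0 ≤ f y) → (∀ y, 0 ≤ g y) → ∑ y, f y = 1 → ∑ y, g y = 1 →
      N (f - g) ≤ 2 := fun f g a b c d => by
    refine (sum_le_sum fun y _ => (abs_sub (f y) (g y))).trans ?_
    simp only [abs_of_nonneg (a _), abs_of_nonneg (b _), sum_add_distrib, c, d]; norm_num
  have b1 := mul_le_mul_of_nonneg_left (b e u e0 u0 se su) (pow_nonneg (a := 1 - 1 / (2 * ((r : ℝ) + 1)))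
    (by rw [sub_nonneg, div_le_one (by positivity)]; linarith [(Nat.cast_nonneg r : (0 : ℝ) ≤ r)]) t)
  have b2 := mul_le_mul_of_nonneg_left (b u (fun _ => c) u0 (fun _ => c0) su sc)
    (pow_nonneg (a := (1 - 1 / 4 : ℝ)) (by norm_num) t)
  have b3 : ∀ y, (P (SS p k r) ^ t) x y - c =
      (K (SS p k r))^[t] (e - u) y + (K (SS p k r))^[t] (u - fun _ => c) y := fun y => by
    have := congrFun (K_add (S := SS p k r) t ((e - u) + (u - fun _ => c)) fun _ => c) y
    rw [K_add t (e - u), K_const SS_ne, sub_add_sub_cancel, sub_add_cancel] at this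
    rw [congrFun (row SS_neg t x) y, sub_eq_iff_eq_add]
    exact this
  have b4 : ∑ y, |(P (SS p k r) ^ t) x y - c| ≤
      N ((K (SS p k r))^[t] (e - u)) + N ((K (SS p k r))^[t] (u - fun _ => c)) := by
    simp only [b3, N, ← sum_add_distrib]
    exact sum_le_sum fun y _ => abs_add_le _ _
  linarith

lemma sqc (X : Finset (ZMod p)) : (univ.filter fun a : ZMod p => a ^ 2 ∈ X).card ≤ 2 * X.card := by
  refine card_le_mul_card_image_of_maps_to (f := fun a => a ^ 2) (fun a ha => (mem_filter.1 ha).2) 2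
    fun x _ => ?_
  rcases (filter (fun a : ZMod p => a ^ 2 = x) (univ.filter fun a : ZMod p => a ^ 2 ∈ X)).eq_empty_or_nonempty
    with h | ⟨a, h⟩
  · simp [h]
  · refine (card_le_card (t := {a, -a}) fun b hb => ?_).trans card_le_two
    simpa using sq_eq_sq_iff_eq_or_eq_neg.1 ((mem_filter.1 hb).2.trans (mem_filter.1 h).2.symm)

lemma killC (hp : 4 * (k + 2) ≤ p) {X : Finset (ZMod p)} (hc : ¬ k + 2 ≤ X.card)
    {g : GG p k r → ℝ} (z : ∀ x ∉ X, ∀ y, ∑ a, g (y + (w p k a x, 0)) = 0) :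
    N (K (SS p k r) g) ≤ (1 - 1 / 8) * N g := by
  obtain ⟨Y, y1, y2⟩ : ∃ Y : Finset (H p k r), (∀ h ∈ Y, h.1 ^ 2 ∉ X) ∧
      Y.card = (univ.filter fun a : ZMod p => a ^ 2 ∉ X).card * (p ^ k * r) :=
    ⟨(univ.filter fun a : ZMod p => a ^ 2 ∉ X) ×ˢ univ,
      fun h hh => (mem_filter.1 (mem_product.1 hh).1).2, by rw [card_product]; simp⟩
  refine kill SS_ne zero_nm (SA_sub Y) (fun y => ?_) ?_
  · rw [SA, sum_image (fun a _ b _ h => inj h), sum_product_right]
    refine sum_eq_zero fun h hh => ?_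
    rw [← z _ (y1 h hh) (y + (0, h))]
    refine sum_congr rfl fun a _ => ?_
    congr 1; ext <;> simp
  · have a := SS_le (p := p) (k := k) (r := r)
    have b := NeZero.pos r
    have c := sqc X
    have e := card_filter_add_card_filter_not (s := univ) (fun a : ZMod p => a ^ 2 ∈ X)
    rw [card_univ, ZMod.card] at e
    have : (SS p k r).card ≤ 4 * (SA p k r Y).card := by
      rw [SA_card, y2]
      calc _ ≤ (r + 1) * p ^ (k + 2) := a
        _ ≤ (2 * r) * p ^ (k + 2) := Nat.mul_le_mul_right _ (by omega)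
        _ = p * (2 * p * (p ^ k * r)) := by ring
        _ ≤ p * (2 * (2 * (univ.filter fun a : ZMod p => a ^ 2 ∉ X).card) * (p ^ k * r)) := by
          gcongr; omega
        _ = _ := by ring
    have : ((SS p k r).card : ℝ) ≤ 4 * (SA p k r Y).card := by exact_mod_cast this
    linarith

lemma gap (hp : 4 * (k + 2) ≤ p) : lam2 (SS p k r) ≤ 1 - 1 / 8 := by
  classical
  refine Real.sSup_le ?_ (by norm_num)
  rintro l ⟨hl, f, hf, he⟩
  rw [mulVec_eq] at he
  obtain ⟨X, hX, gm⟩ := exists_max_image (univ.filter fun X : Finset (ZMod p) =>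
    ∃ g : GG p k r → ℝ, g ≠ 0 ∧ K (SS p k r) g = l • g ∧ ∀ x ∈ X, ∀ a y, g (y + (w p k a x, 0)) = g y)
    card ⟨∅, mem_filter.2 ⟨mem_univ _, f, hf, he, by simp⟩⟩
  obtain ⟨g, g0, ge, gi⟩ := (mem_filter.1 hX).2
  by_cases hc : k + 2 ≤ X.card
  · refine (eig g0 ge (killA (fun y v => ?_) ?_)).trans (by norm_num)
    · let x : Fin (k + 2) → ZMod p := fun i => (X.equivFin.symm (i.castLE hc)).1
      have hx : Function.Injective x :=
        Subtype.val_injective.comp ((Equiv.injective _).comp (Fin.castLE_injective _))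
      obtain ⟨a, rfl⟩ := vecMul_surjective_iff_isUnit.2 ((isUnit_iff_isUnit_det _).2
        (det_vandermonde_ne_zero_iff.2 hx).isUnit) v
      have : ∀ I : Finset (Fin (k + 2)), g (y + (∑ i ∈ I, w p k (a i) (x i), 0)) = g y := fun I => by
        induction I using Finset.induction_on with
        | empty => simp [Prod.mk_zero_zero]
        | insert i I hi ih =>
          rw [← ih, ← gi (x i) (Subtype.prop _) (a i) (y + (∑ i ∈ I, w p k (a i) (x i), 0)),
            sum_insert hi]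
          congr 1; ext <;> simp [add_comm, add_left_comm]
      convert this univ using 4
      ext j; simp [vecMul, dotProduct, w]
    · have := sum_K (S := SS p k r) SS_ne g
      rw [ge] at this
      simp only [Pi.smul_apply, smul_eq_mul, ← mul_sum] at this
      exact (mul_left_eq_self₀.1 this).resolve_left hl
  · have z : ∀ x ∉ X, ∀ y, ∑ a, g (y + (w p k a x, 0)) = 0 := fun x hx => by
      by_contra hn
      have := gm (insert x X) (mem_filter.2 ⟨mem_univ _, fun y => ∑ a, g (y + (w p k a x, 0)),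
        fun h => hn (congrFun h), by ext y; rw [← K_sum, ge]; simp [mul_sum], fun x' hx' b y => by
          rcases mem_insert.1 hx' with rfl | hx'
          · refine Eq.trans ?_ (Equiv.sum_comp (Equiv.addLeft b) (fun a => g (y + (w p k a x', 0))))
            refine sum_congr rfl fun a _ => ?_
            congr 1; ext <;> simp [w, add_mul, add_assoc]
          · exact sum_congr rfl fun a _ => by rw [add_right_comm, gi x' hx']⟩)
      rw [card_insert_of_notMem hx] at this
      omega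
    exact eig g0 ge (killC hp hc z)

def R (p k : ℕ) [Fact p.Prime] : ℕ → Finset (V p k)
  | 0 => {0}
  | t + 1 => (R p k t ×ˢ (univ : Finset (ZMod p × ZMod p))).image fun z => z.1 - w p k z.2.1 z.2.2

lemma R_card (t : ℕ) : (R p k t).card ≤ p ^ (2 * t) := by
  induction t with
  | zero => simp [R]
  | succ t ih =>
    refine card_image_le.trans ?_
    rw [card_product, show p ^ (2 * (t + 1)) = p ^ (2 * t) * (p * p) by ring]
    simpa using Nat.mul_le_mul_right _ ih

lemma step (t : ℕ) {g : GG p k r → ℝ} (h : ∀ y, 0 ≤ g y) :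
    (1 - 1 / (2 * r)) * ∑ y ∈ R p k t ×ˢ univ, g y ≤ ∑ y ∈ R p k (t + 1) ×ˢ univ, K (SS p k r) g y := by
  have a : ∀ s : GG p k r, (∃ a x, s.1 = w p k a x) →
      ∑ y ∈ R p k t ×ˢ univ, g y ≤ ∑ y ∈ R p k (t + 1) ×ˢ univ, g (y + s) := by
    rintro s ⟨a, x, e⟩
    have := sum_image (s := R p k t ×ˢ univ) (g := fun y => y - s) (f := fun y => g (y + s))
      (fun _ _ _ _ h => sub_left_injective h)
    simp only [sub_add_cancel] at this
    rw [← this]
    refine sum_le_sum_of_subset_of_nonneg ?_ fun _ _ _ => h _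
    intro y hy
    obtain ⟨z, hz, rfl⟩ := mem_image.1 hy
    exact mem_product.2 ⟨mem_image.2 ⟨(z.1, a, x), by simpa using hz, by simp [e]⟩, mem_univ _⟩
  have a0 := a 0 ⟨0, 0, by ext; simp [w]⟩
  have a1 : ((SS p k r \ SB p k r).card : ℝ) * ∑ y ∈ R p k t ×ˢ univ, g y ≤
      ∑ s ∈ SS p k r, ∑ y ∈ R p k (t + 1) ×ˢ univ, g (y + s) := by
    rw [← nsmul_eq_mul]
    refine (card_nsmul_le_sum _ _ _ fun s hs => a s ?_).trans (sum_le_sum_of_subset_of_nonneg
      sdiff_subset fun _ _ _ => sum_nonneg fun _ _ => h _)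
    obtain ⟨b, c⟩ := mem_sdiff.1 hs
    rcases (mem_filter.1 b).2.2 with e | ⟨a, e⟩
    · exact (c (mem_image.2 ⟨s.1, mem_univ _, Prod.ext rfl e.symm⟩)).elim
    · exact ⟨_, _, e⟩
  have a2 : ((SS p k r).card : ℝ) ≤ (SS p k r \ SB p k r).card + p ^ (k + 2) := by
    have := card_le_card_sdiff_add_card (s := SS p k r) (t := SB p k r)
    rw [SB_card] at this
    exact_mod_cast this
  have a3 : (r : ℝ) * p ^ (k + 2) ≤ (SS p k r).card := by exact_mod_cast SS_ge
  have a4 : (0 : ℝ) < r := by exact_mod_cast NeZero.pos r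
  have a5 : (0 : ℝ) < (SS p k r).card := by exact_mod_cast SS_ne.card_pos
  have a6 : 0 ≤ ∑ y ∈ R p k t ×ˢ univ, g y := sum_nonneg fun _ _ => h _
  simp only [K, sum_add_distrib, ← mul_sum, add_zero] at a0 ⊢
  rw [sum_comm]
  have a7 : (1 / 2 - 1 / (2 * r) : ℝ) ≤ 1 / (2 * (SS p k r).card) * (SS p k r \ SB p k r).card := by
    rw [div_sub_div _ _ (by norm_num) (by positivity), div_mul_eq_mul_div,
      div_le_div_iff₀ (by positivity) (by positivity)]
    nlinarith
  nlinarith [mul_le_mul_of_nonneg_right a7 a6, mul_le_mul_of_nonneg_left a1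
    (by positivity : 0 ≤ 1 / (2 * ((SS p k r).card : ℝ)))]

lemma lower (t : ℕ) (ht : 2 * t ≤ k) : 1 - t / (2 * r) - 1 / (p : ℝ) ^ 2 ≤ d (SS p k r) t := by
  refine le_trans ?_ (le_ciSup (Finite.bddAbove_range _) 0)
  have a4 : (1 : ℝ) ≤ r := by exact_mod_cast NeZero.pos r
  have b0 : (0 : ℝ) ≤ 1 - 1 / (2 * r) := by rw [sub_nonneg, div_le_one (by positivity)]; linarith
  have h : ∀ t, (∀ y, 0 ≤ (K (SS p k r))^[t] (fun y => if 0 = y then 1 else 0) y) ∧
      ∑ y, (K (SS p k r))^[t] (fun y => if 0 = y then 1 else 0) y = 1 ∧ (1 - 1 / (2 * r)) ^ t ≤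
      ∑ y ∈ R p k t ×ˢ univ, (K (SS p k r))^[t] (fun y => if 0 = y then 1 else 0) y := fun t => by
    induction t with
    | zero => exact ⟨fun y => by dsimp; split_ifs <;> norm_num, by simp, by simp [R]⟩
    | succ t ih =>
      rw [Function.iterate_succ_apply']
      refine ⟨fun y => ?_, (sum_K SS_ne _).trans ih.2.1, le_trans ?_ (step t ih.1)⟩
      · exact add_nonneg (mul_nonneg (by norm_num) (ih.1 _))
          (mul_nonneg (by positivity) (sum_nonneg fun _ _ => ih.1 _))
      · rw [pow_succ']; exact mul_le_mul_of_nonneg_left ih.2.2 b0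
  obtain ⟨-, h1, h2⟩ := h t
  rw [← row (S := SS p k r) SS_neg t 0] at h1 h2
  beta_reduce at h1 h2
  have h3 := one_add_mul_le_pow (a := -(1 / (2 * (r : ℝ)))) (by linarith) t
  set c : ℝ := 1 / Fintype.card (GG p k r) with hc
  have sc : ∑ _y : GG p k r, c = 1 := by
    simp only [c, sum_const, card_univ, nsmul_eq_mul]
    exact mul_one_div_cancel (by positivity)
  have pp : (0 : ℝ) < p := by exact_mod_cast (Fact.out : p.Prime).pos
  have h4 : ∑ _y ∈ R p k t ×ˢ (univ : Finset (H p k r)), c ≤ 1 / (p : ℝ) ^ 2 := by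
    have : ((R p k t).card : ℝ) ≤ p ^ k := by
      exact_mod_cast (R_card t).trans (Nat.pow_le_pow_right (Fact.out : p.Prime).pos ht)
    have e : (Fintype.card (GG p k r) : ℝ) = p ^ (k + 2) * Fintype.card (H p k r) := by
      rw [Fintype.card_prod]; simp
    have : (0 : ℝ) < Fintype.card (H p k r) := by positivity
    rw [sum_const, card_product, hc, e, nsmul_eq_mul, card_univ, mul_one_div,
      div_le_div_iff₀ (by positivity) (by positivity)]
    push_cast
    calc _ = ((R p k t).card : ℝ) * (p ^ 2 * Fintype.card (H p k r)) := by ring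
      _ ≤ p ^ k * (p ^ 2 * Fintype.card (H p k r)) := by gcongr
      _ = _ := by ring
  have e1 := sum_add_sum_compl (R p k t ×ˢ univ) fun y => |(P (SS p k r) ^ t) 0 y - c|
  have e2 := sum_add_sum_compl (R p k t ×ˢ univ) fun y => (P (SS p k r) ^ t) 0 y - c
  have e3 := sum_le_sum (s := R p k t ×ˢ univ) fun y _ => le_abs_self ((P (SS p k r) ^ t) 0 y - c)
  have e4 := sum_le_sum (s := (R p k t ×ˢ univ)ᶜ) fun y _ => neg_le_abs ((P (SS p k r) ^ t) 0 y - c)
  rw [sum_neg_distrib] at e4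
  rw [sum_sub_distrib (s := univ), h1, sc] at e2
  rw [sum_sub_distrib] at e2 e3
  rw [← sub_eq_add_neg, mul_neg, mul_one_div] at h3
  linarith

lemma times (m : ℕ) (hm : 3 ≤ m) (hr : r = 3 * m) (hk : k = 8 * m) (hp : 4 ≤ p) :
    4 * m < Tmix (SS p k r) (1 / 4) ∧ 0 < Tmix (SS p k r) (1 - 1 / 4) ∧
      Tmix (SS p k r) (1 - 1 / 4) ≤ 3 * m + 1 := by
  have r0 : (r : ℝ) = 3 * m := by exact_mod_cast hr
  have m0 : (3 : ℝ) ≤ m := by exact_mod_cast hm
  have p0 : 1 / (p : ℝ) ^ 2 ≤ 1 / 4 ^ 2 := by gcongr; exact_mod_cast hp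
  have b0 : (0 : ℝ) < 1 / (2 * (r + 1)) := by positivity
  have b1 : (1 : ℝ) / (2 * (r + 1)) < 1 := by rw [div_lt_one (by positivity)]; linarith
  have u : d (SS p k r) (3 * m + 1) ≤ 1 - 1 / 4 := by
    refine (upper _).trans ?_
    have a1 : (1 - 1 / 4 : ℝ) ^ (3 * m + 1) ≤ (1 - 1 / 4) ^ 10 :=
      pow_le_pow_of_le_one (by norm_num) (by norm_num) (by omega)
    have a2 := one_add_mul_le_pow (a := 1 / (2 * ((r : ℝ) + 1))) (by linarith) (3 * m + 1)
    have a3 : ((3 * m + 1 : ℕ) : ℝ) * (1 / (2 * (r + 1))) = 1 / 2 := by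
      push_cast; rw [r0]; field_simp
    have a4 : (1 + 1 / (2 * ((r : ℝ) + 1))) ^ (3 * m + 1) * (1 - 1 / (2 * (r + 1))) ^ (3 * m + 1) ≤ 1 := by
      rw [← mul_pow]; exact pow_le_one₀ (by nlinarith) (by nlinarith)
    have a5 : 0 ≤ (1 - 1 / (2 * ((r : ℝ) + 1))) ^ (3 * m + 1) := pow_nonneg (by linarith) _
    rw [a3] at a2
    nlinarith [mul_le_mul_of_nonneg_right a2 a5]
  have ne : {t | d (SS p k r) t ≤ 1 / 4}.Nonempty := by
    have := (tendsto_pow_atTop_nhds_zero_of_lt_one (r := 1 - 1 / (2 * ((r : ℝ) + 1))) (by linarith)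
      (by linarith)).add (tendsto_pow_atTop_nhds_zero_of_lt_one (r := (1 - 1 / 4 : ℝ)) (by norm_num)
      (by norm_num))
    obtain ⟨t, ht⟩ := (this.eventually (ge_mem_nhds (by norm_num : (0 + 0 : ℝ) < 1 / 4))).exists
    exact ⟨t, (upper t).trans ht⟩
  refine ⟨lt_of_not_ge fun h => ?_, Nat.pos_of_ne_zero fun h => ?_, Nat.sInf_le u⟩
  · have a1 : d (SS p k r) (Tmix (SS p k r) (1 / 4)) ≤ 1 / 4 := Nat.sInf_mem ne
    have a2 := lower (p := p) (k := k) (r := r) _ (by omega : 2 * Tmix (SS p k r) (1 / 4) ≤ k)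
    have a3 : (Tmix (SS p k r) (1 / 4) : ℝ) / (2 * r) ≤ 2 / 3 := by
      have : (Tmix (SS p k r) (1 / 4) : ℝ) ≤ 4 * m := by exact_mod_cast h
      rw [div_le_iff₀ (by linarith)]; linarith
    linarith
  · have a1 : d (SS p k r) (Tmix (SS p k r) (1 - 1 / 4)) ≤ 1 - 1 / 4 :=
      Nat.sInf_mem (s := {t | d (SS p k r) t ≤ 1 - 1 / 4}) ⟨_, u⟩
    have a2 := lower (p := p) (k := k) (r := r) 0 (by omega)
    rw [h] at a1
    simp only [Nat.cast_zero, zero_div] at a2
    linarith

end ex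

/-- A sequence of lazy simple random walks on connected loopless abelian Cayley graphs that
satisfies the product condition but has no cutoff. -/
theorem result : ∃ (G : ℕ → Type) (_ : ∀ n, AddCommGroup (G n)) (_ : ∀ n, Fintype (G n))
    (_ : ∀ n, DecidableEq (G n)) (S : ∀ n, Finset (G n)),
    (∀ n, 0 ∉ S n ∧ (∀ s ∈ S n, -s ∈ S n) ∧ AddSubgroup.closure (S n : Set (G n)) = ⊤) ∧
    Tendsto (fun n => Fintype.card (G n)) atTop atTop ∧
    Tendsto (fun n => (Tmix (S n) (1 / 4) : ℝ) / Trel (S n)) atTop atTop ∧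
    ¬ ∀ ε : ℝ, 0 < ε → ε < 1 / 2 →
      Tendsto (fun n => (Tmix (S n) ε : ℝ) / Tmix (S n) (1 - ε)) atTop (𝓝 1) := by
  choose p hp pr using fun n : ℕ => Nat.exists_infinite_primes (4 * (8 * (n + 3) + 2))
  haveI : ∀ n, Fact (p n).Prime := fun n => ⟨pr n⟩
  haveI : ∀ n : ℕ, NeZero (3 * (n + 3)) := fun n => ⟨by omega⟩
  have T := fun n => times (p := p n) (k := 8 * (n + 3)) (r := 3 * (n + 3)) (n + 3) (by omega) rfl rfl
    (by have := hp n; omega)
  refine ⟨fun n => GG (p n) (8 * (n + 3)) (3 * (n + 3)), inferInstance, inferInstance, inferInstance,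
    fun n => SS _ _ _, fun n => ⟨zero_nm, SS_neg, SS_gen⟩, ?_, ?_, fun h => ?_⟩
  · refine tendsto_atTop_mono (fun n => ?_) tendsto_id
    refine le_trans ?_ ((SS_ge (p := p n) (k := 8 * (n + 3)) (r := 3 * (n + 3))).trans (card_le_univ _))
    exact le_trans (by dsimp; omega) (Nat.le_mul_of_pos_right _ ppos)
  · refine tendsto_atTop_mono (fun n => ?_)
      (tendsto_natCast_atTop_atTop.const_mul_atTop (by norm_num : (0 : ℝ) < 1 / 8))
    have a := gap (r := 3 * (n + 3)) (hp n)
    have b : (n : ℝ) ≤ Tmix (SS (p n) (8 * (n + 3)) (3 * (n + 3))) (1 / 4) := by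
      exact_mod_cast (by have := (T n).1; omega)
    rw [Trel, div_div_eq_mul_div, div_one, mul_comm]
    exact mul_le_mul b (by linarith) (by norm_num) (by positivity)
  · refine absurd (ge_of_tendsto' (b := 5 / 4) (h (1 / 4) (by norm_num) (by norm_num)) fun n => ?_)
      (by norm_num)
    obtain ⟨a, b, c⟩ := T n
    beta_reduce
    rw [le_div_iff₀ (by exact_mod_cast b), div_mul_eq_mul_div, div_le_iff₀ (by norm_num)]
    exact_mod_cast (by omega)

end

end Pool.Agent.Results.MP_8d2225_pr.NoCutoff
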